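import Pool.Agent.T9h37.NP.Main

/-!
# The noncommutative conjecture of Beilinson for tensor products with elliptic curves and abelian varieties of
# prime dimension

Let `𝒜` be a smooth proper dg category over a finite field whose noncommutative motive with rational
coefficients is a direct summand `(Y, e')` of the one of a smooth projective variety `Y`; `e'` is an
**arbitrary** idempotent in `K_0(Y × Y)_ℚ`. How can one enlarge `𝒜` without making the conjecture of
Beilinson for it more difficult? The theorem says: by the tensor product with `perf(A)`, where the simple
factors `B i` of the abelian variety `A` are elliptic curves or have an odd prime dimension, and are in general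
position relative to the eigenvalues of Frobenius of `𝒜`.

More precisely, let `Z` be an abelian variety over a finite field with factors `B i`, CM fields `E i` and
Frobenius numbers `π i ∈ E i` (`RedAV`, by the theory of Honda and Tate), such that (`HasPrimeFactors`)

* `B i` is an ordinary elliptic curve, or `[E i : ℚ] = 2 ℓ` with an odd prime number `ℓ` (which may depend on
  `i`), `B i` is not supersingular, and `E i` contains no imaginary quadratic field;
* for `i ≠ k` the fields `E i` and `E k` are independent (`Apart`), for instance the dimensions are different,
  or `E i` and `E k` are different imaginary quadratic fields, or the maximal real subfield of `E i` is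
  not contained in the Galois closure of `E k`.

Let `A` be an abelian variety over the field with `Q` elements isogenous to a product of powers of the
`B i` (after a base change), let `𝒳` be a noncommutative direct factor of `perf(A)`, for an
**arbitrary** idempotent `e` in `K_0(A × A)_ℚ`, for instance `perf(A)`, or `perf(X)` for a curve `X` with
Jacobian `A`.

**Theorem.** Suppose that for all eigenvalues `ρ` of Frobenius that occur in `𝒜` some `n > 0` is such that the
Galois closure of `ℚ(ρ ^ n)` contains no `E i`, and that products of sufficiently many homologically
trivial endomorphisms of the noncommutative motives of `A` and `A × Y` are zero (for instance the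
motive of `Y` is finite-dimensional in the sense of Kimura and O'Sullivan). Then `K_0(𝒳)_ℚ` has a
finite basis `D j` (which does not depend on `𝒜`), its Euler pairing is nondegenerate, and
`K_0(𝒳 ⊗ 𝒜)_ℚ = ⨁ D j × K_0(𝒜)_ℚ = K_0(𝒳)_ℚ ⊗ K_0(𝒜)_ℚ`, and the same for the kernels of the
Euler pairings. So, if `K_0(𝒳)_ℚ ≠ 0`: **`Ker (χ_ℚ) = 0` for `𝒳 ⊗ 𝒜` if and only if `Ker (χ_ℚ) = 0` for `𝒜`.**

The condition on `𝒜` holds for instance if the `B i` have odd prime dimensions and for all `ρ` some `ρ ^ n` is
of degree smaller than these dimensions (the order of the Galois group is then not divisible by
`dim B i`); so, for instance, if all Betti numbers of `Y` are smaller than all `dim B i`. There is no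
condition on the relative position of the fields `E i` and `ℚ(ρ)` in this case. No conjecture is assumed,
neither for `𝒜` nor for `A`.

**What was known.** For one category, that is for `𝒜 = perf(point)`: the Tate conjecture for the powers of a
simple abelian variety of prime dimension (Tankeev) and for products of elliptic curves (Spiess), and
the conjecture of Beilinson for them (Kahn, Soulé). The starting file `AlmostAllAbelianFactors` proves the
Kunneth formula for `𝒳 = perf(A)` for almost all abelian varieties `A` (in terms of their
characteristic polynomials), relative to `𝒜`; here there are no exceptions. `SeparatedTensorProducts`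
assumes the Tate conjecture for `𝒳` and that the eigenvalues are separated, and `MaximalAngleRank`
assumes that the eigenvalues of `A` have no nontrivial relations and that they are independent of those of
`𝒜`; here all this is proved.

The framework (`TheoryData`, `IsChow`, `IsWeil`) is the one of helper492: the Chow groups `C` with their
pull-backs, push-forwards and products, and a Weil cohomology theory `H` with coefficients in an
algebraically closed field `K`, on a class `𝒱` of smooth proper varieties over `k`.

**Idea of the proof.** Let `L` be a large Galois CM field with group `G`. A product `α` of eigenvalues of `A`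
defines a function `F` on `G`, its `p`-adic slopes minus the middle slope. Let `α ρ` be a power of `Q`.
Let `N` be the normal subgroup of `G` which fixes the conjugates of a power of `ρ ^ n`, let `w` be an embedding
of `E i` in `L`, and suppose that no element of `N` maps `w` to its complex conjugate. Then the orbit of
`w` under `N` consists of `w`, or it is one half of the embeddings, for reasons of divisibility by `ℓ`. In the
first case `w(E i)` is contained in the Galois closure of `ℚ(ρ ^ n)`, in the second case `E i` contains
an imaginary quadratic field. So some `τ ∈ N` maps `w` to its complex conjugate. As `F` is invariant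
under `τ`, and the function of `w` is anti-invariant, they are orthogonal. Hence `F` is
orthogonal to itself, so `F = 0`, and `α` is, up to a root of unity, a square root of a power of `Q`. All relations
between the eigenvalues of the `B i` are trivial, again by divisibility by `ℓ`, so `α` is a power of
`Q`, and the products of eigenvectors with this eigenvalue are products of divisor classes.
-/

set_option autoImplicit false

open CategoryTheory AlgebraicGeometry

namespace Pool.Agent.Results.MP_dd457d_ag.EllipticAndPrimeFactors

open Pool.Agent.H914 Pool.Agent.H914.VarClass Pool.Agent.H914.VarClass.Obj Pool.Agent.W492.BB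
  Pool.Agent.W484.CK Pool.Agent.T9h37.NK Pool.Agent.T9h37.NP
open Pool.Agent.W495.TA (RedAV)

/-- `Z` is an abelian variety over the field with `p ^ a` elements, `a = Z.a`, and `π` is the Frobenius
endomorphism of the abelian variety `A` over the field with `Q = (p ^ a) ^ s` elements, and
`𝒳 = (A, e)`. -/
theorem result (p : ℕ) [Fact p.Prime] (ν : PadicAlgCl p ≃+* ℂ) (Z : RedAV p ν)
    (hZ : HasPrimeFactors Z) (k : Type) [Field k] (𝒱 : VarClass k) (C : TheoryData.{0, 0, 0} 𝒱 ℚ)
    [IsChow C] (K : Type) [Field K] [IsAlgClosed K] [CharZero K] (H : WeilTheoryData.{0, 0, 0} C K)
    [IsWeil H] (hS : IsStandard H) (s : ℕ) (A : 𝒱.Obj) (π : A ⟶ A)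
    (hA : IsProductOfFactors H Z s π) (hnil : ProductsVanish H A) (e : C.A (A.prod A))
    (he : IsIdempotent C e) : KunnethForOutside H Z π ((p ^ Z.a) ^ s) e :=
  main hS hZ hA hnil e he

end Pool.Agent.Results.MP_dd457d_ag.EllipticAndPrimeFactors
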