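import Pool.Agent.T9h41.XG.NC2

/-!
# The kernel of the Euler pairing and the exponential growth of Grothendieck groups

Let `𝒜` be a smooth proper dg category over a field `k` which satisfies the noncommutative sign
conjecture (the projector to the even part of the periodic cyclic homology is algebraic; for `k`
finite this is known for all `𝒜` whose noncommutative motive `A = U (𝒜)` is a direct summand of the one
of a smooth projective scheme). Let `b > 0` be the total dimension of the periodic cyclic homology,
`B n = (𝒜 ⊗ 𝒜ᵒᵖ) ^ n`, and `d (n)` the dimension of `K_0 (B n)_ℚ`, a number or infinity.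

Theorem. (1) [`k` any field] Suppose that `Ker (χ)` in `K_0 (B m)_ℚ = End (A ^ m)` contains an element
`y` which is not nilpotent for the composition of bimodules. Then for ALL `N`

  `d (m (N + 1)) ≥ (b ^ m + 1) ^ (2 N) / (N + 1) ^ (b ^ (2 m) + 1)`.

(2) [`k` any field] If `liminf d (n) ^ (1 / n) ≤ b ^ 2` then the motive `A` is finite-dimensional in the
sense of Kimura and O'Sullivan, and all the kernels of `χ` in the rings `K_0 (B m)_ℚ` are nil.

(3) [`k` a finite field] Let `Y` be a smooth projective scheme which satisfies the Tate conjecture,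
with the Frobenius semisimple at the Tate classes, and suppose that `A` is a direct summand of the
noncommutative motive of `Y`: for instance `𝒜` is a component of a semi-orthogonal decomposition
of `perf (Y)`. If the noncommutative conjecture of Beilinson fails for `𝒜`, that is, if `Ker (χ_ℚ) ≠ 0`
in `K_0 (𝒜)_ℚ`, then for ALL `N`

  `dim K_0 ((𝒜 ⊗ 𝒜ᵒᵖ) ^ N ⊗ 𝒜)_ℚ ≥ (b + 1) ^ (2 N) / (N + 1) ^ (b ^ 2 + 1)`.

The powers of `b` are the dimensions of the cohomology, which bound the groups `K_0 / Ker (χ)`: a
single element of `Ker (χ_ℚ)` produces exponentially many other ones, in a larger proportion of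
`K_0` for each `N`; and the conjecture for `𝒜` follows from a single inequality for one `N`.

(4) [`k` a finite field] Suppose that all powers of `Y` satisfy the Tate conjecture with
semisimplicity. The conjecture of Beilinson holds for all the dg categories `B n` if and only if
`liminf d (n) ^ (1 / n) ≤ b ^ 2`, that is, `d (n) ≤ a ^ n` for infinitely many `n`, for each `a > b ^ 2`.

In (3) only the Tate conjecture for `Y` itself is used. This is known for example if `Y` is a complete
intersection of odd dimension in a projective space, such as a quintic threefold (`b = 208`), for which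
the conjecture of Beilinson is not known. A counterexample `𝒜` of the form of (3) forces `dim K_0 (𝒜 ^ N ⊗ (𝒜ᵒᵖ) ^ N ⊗ 𝒜)_ℚ` to grow at least
as `(b + 1) ^ (2 N)` up to a polynomial factor.

The setting. `C` is the category of noncommutative Chow motives over `k` with coefficients in `ℚ`
(Kontsevich): it is a rigid symmetric monoidal pseudo-abelian category, `Hom (U 𝒜, U ℬ) =
K_0 (𝒜ᵒᵖ ⊗ ℬ)_ℚ`, the tensor product is the one of dg categories, and the dual of `U 𝒜` is
`U (𝒜ᵒᵖ)`. So `K_0 (𝒜)_ℚ` is the group of morphisms from the unit object to `U 𝒜`, and `Ker (χ)`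
consists of the morphisms whose composites with all morphisms `U 𝒜 ⟶ U k` are zero (since
`χ (M, N)` is the composite of `N` with the dual of `M`). In the ring `End (U 𝒜) = K_0 (𝒜ᵒᵖ ⊗ 𝒜)_ℚ`
the kernel of `χ` consists of the `y` such that `y z` has trace zero for all `z` (`NumTriv`; Marcolli
and Tabuada). `R` is the periodic cyclic homology (for fields of characteristic zero), the
topological periodic cyclic homology with `p` inverted (for perfect fields of characteristic `p`; the
coefficients are extended to an algebraically closed field `K`), or, in (3) and (4), the `ℓ`-adic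
cohomology on the category of the direct summands of motives of smooth projective schemes. In (3)
`Fr` is the pull-back by the Frobenius endomorphism of `Y`, in (4) `T` is the motive of `Y`, which is
self-dual, and `tp T n` the one of the power `Y ^ n`. `Killed`: the Frobenius acts on `K_0 (Y)_ℚ` with
eigenvalues `q ^ i` and diagonalizably, hence is killed by a product of factors `Fr - q ^ i`.
`IsTateSS`: the Tate conjecture with semisimplicity: all cohomology classes killed by a power of
`Fr - q ^ i` are combinations of classes of elements of `K_0 (Y)`, and the same for functionals; and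
`Fr` satisfies a polynomial with rational coefficients (Weil conjectures).

The proof. (1): exponential growth of additive functors (`exp_gap`): decompose `(A ⊗ Aᘁ) ^ N ⊗ A` by
the Fitting idempotents `f` of `y` and `f'` of its transpose for the operations on all factors. If `f`
and `f'` both occur `j` times, the summand is not zero, as the snake identity recovers a power of
`y`, and its dimension is at least the numerical rank of `(A ⊗ Aᘁ) ^ (N - j)`, because `1 - f` and `1`
are numerically equivalent; this rank is almost `b ^ (2 (N - j))`. Summation over all positions gives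
almost `(b + 1) ^ (2 N)`. (3): with dual bases `α_i`, `β_i` modulo numerical equivalence,
`e = ∑ β_i ≫ α_i`, and a polynomial `P` such that `P (Fr)` is the projector to the Tate classes, the
endomorphism `P (Fr) - P (Fr) e` of `U (Y)` is homologically trivial by the Tate conjecture, and its
compression to `A` acts as the identity on `Ker (χ_ℚ)`. (2) uses that nilpotence implies Kimura
finiteness for all motives with the sign conjecture (library `N64.AF`).
-/

set_option autoImplicit false

open CategoryTheory MonoidalCategory
open Pool.Agent.Y112.SR Pool.Agent.Y112.KD Pool.Agent.N64.AF Pool.Agent.T9h41.XG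

namespace Pool.Agent.Results.MP_dd457d_ag.GrowthGap

universe v u w

/-- **The kernel of the Euler pairing and the growth of Grothendieck groups.** -/
theorem result {C : Type u} [Category.{v} C] [Preadditive C] [MonoidalCategory C]
    [MonoidalPreadditive C] [SymmetricCategory C] [RightRigidCategory C] [Linear ℚ C]
    [MonoidalLinear ℚ C] [IsIdempotentComplete C] {K : Type w} [Field K] [IsAlgClosed K]
    [Algebra ℚ K] (R : SuperRealisation C K) (hR : IsReal ℚ R) :
    (∀ A : C, R.CPlus A → 0 < bt R A →
      (∀ (m : ℕ) (y : End (tp A m)), NumTriv (y : tp A m ⟶ tp A m) → ¬ IsNilpotent y →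
        PowGrows ℚ A (bt R A) m) ∧
      (RateLe ℚ (homF ℚ (𝟙_ C)) (A ⊗ Aᘁ) (bt R A ^ 2) → Pool.Agent.R905.IsKimuraFinite A ∧
        ∀ (m : ℕ) (y : End (tp A m)), NumTriv (y : tp A m ⟶ tp A m) → IsNilpotent y)) ∧
    (∀ (q : ℕ) (Y A : C) (Fr : Y ⟶ Y) (i : A ⟶ Y) (r : Y ⟶ A), 1 < q → R.CPlus Y →
      IsTateSS ℚ R q Fr → Killed q (homF ℚ (𝟙_ C)) Fr → i ≫ r = 𝟙 A → ¬ Beilinson A →
        NCGrows ℚ A (bt R A)) ∧
    (∀ (q : ℕ) (T A : C) [ExactPairing T T] (Fr : ∀ n, tp T n ⟶ tp T n) (i : A ⟶ T) (r : T ⟶ A),
      1 < q → R.CPlus T → (∀ n, IsTateSS ℚ R q (Fr n)) → (∀ n, Killed q (homF ℚ (𝟙_ C)) (Fr n)) →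
        i ≫ r = 𝟙 A → 0 < bt R A →
        ((∀ n, Beilinson (tp (A ⊗ Aᘁ) n)) ↔
          RateLe ℚ (homF ℚ (𝟙_ C)) (A ⊗ Aᘁ) (bt R A ^ 2))) :=
  ⟨fun _ hA hb => ⟨fun m y hy hn N => grows_of_not_nilpotent hR hA m y hy hn N,
      fun h => ⟨kimura_of_nil hR hA fun n y hy =>
        nilpotent_of_rateLe hR hA hb h n y (numTriv_of_map hR hy),
        fun m y hy => nilpotent_of_rateLe hR hA hb h m y hy⟩⟩,
    fun _ _ _ Fr i r hq hY hT hc hir hB =>
      grows_of_not_beilinson hR (cplus_retract R i r hir hY) hq Fr hT hc i r hir hB,
    fun _ _ _ _ Fr i r hq hC hT hc hir hb =>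
      beilinson_iff hR hq Fr hc hT (cplus_retract R i r hir hC) hb i r hir⟩

end Pool.Agent.Results.MP_dd457d_ag.GrowthGap
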