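import Pool.Agent.T9h37.NM.Main

/-!
# The noncommutative conjecture of Beilinson for tensor products with abelian varieties of maximal angle rank

Let `A` be an abelian variety over the field with `Q` elements. Each Frobenius eigenvalue `y` on `H^1(A)`
satisfies the trivial relation `y * ȳ = Q`, where `ȳ = Q / y` is the complex conjugate. The *angle rank*
of `A` is maximal if, up to roots of unity and powers of `Q`, there are no other multiplicative relations
between the eigenvalues (`HasMaximalAngleRank`; we allow also supersingular factors, as long as only one
of the two numbers `±√Q` is an eigenvalue). This is known for instance for products of powers of pairwise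
non-isogenous ordinary elliptic curves over an algebraic closure (Spiess), for simple abelian varieties
of prime dimension under mild conditions (Tankeev, Lenstra and Zarhin), for abelian varieties of K3
type (Zarhin), and it is the generic behaviour (Dupuy, Kedlaya and Zureick-Brown).

Let `𝒳` be a noncommutative direct factor of `perf(A)`, given by an **arbitrary** idempotent `e` in
`K_0(A × A)_ℚ`, for instance `perf(A)`, or `perf(X)` for a curve `X` with Jacobian `A`; and let `𝒜` be an
**arbitrary** noncommutative motive `(Y, e')`, where `Y` is a smooth projective variety and `e'` an
idempotent in `K_0(Y × Y)_ℚ`. The eigenvalues that *occur* in `𝒜` are defined in `Occurs`.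

**Theorem.** Suppose that for each eigenvalue `y` on `H^1(A)` and each eigenvalue `ρ` that occurs in `𝒜`
some automorphism of the coefficient field `K` fixes a power of `ρ` and maps `y` to `ȳ` (and that
`y ρ` is not the product of a power of `Q` and a root of unity if `y ^ 2 = Q`), and that products
of sufficiently many homologically trivial endomorphisms of the noncommutative motive of `A × Y` are zero
(for instance its motive is finite-dimensional in the sense of Kimura and O'Sullivan). Then
`K_0(𝒳)_ℚ` has a finite basis `D j` (which does not depend on `𝒜`), its Euler pairing is
nondegenerate, and `K_0(𝒳 ⊗ 𝒜)_ℚ = ⨁ D j × K_0(𝒜)_ℚ = K_0(𝒳)_ℚ ⊗ K_0(𝒜)_ℚ`, and the same for the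
kernels of the Euler pairings. So, if `K_0(𝒳)_ℚ ≠ 0`: **`Ker (χ_ℚ) = 0` for `𝒳 ⊗ 𝒜` if and only if
`Ker (χ_ℚ) = 0` for `𝒜`.**

No conjecture is assumed, neither for `𝒜` nor for `A` (Tate's theorem on divisors is used for `A`, and
the Tate conjecture for `A` in all codimensions follows by Zarhin's argument). The automorphism may
depend on `y` and `ρ`. For instance:

* if for all `ρ` a power is rational (`𝒜` is supersingular, for instance `𝒜 = perf(Y)` for a supersingular
  K3 surface or abelian variety) and `A` has no supersingular factors, the condition is always
  satisfied;
* if `A` is a product of powers of elliptic curves with different imaginary quadratic fields `F i`, then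
  the condition is that no `F i` is contained in the Galois closure of a field generated by a suitable
  power of some `ρ`, *separately* for all `i` and `ρ`.

**What was known.** For one category, that is for `𝒜 = perf(point)`: the conjecture for `A` (Zarhin and
Kahn, Soulé). The starting file `AlmostAllAbelianFactors` proves the Kunneth formula for `𝒳 = perf(A)`
for almost all abelian varieties `A` of sufficiently large dimension (in terms of their
characteristic polynomials), relative to `𝒜`. Here the condition on `A` is explicit and does not
depend on `𝒜`, and the dimensions are arbitrary. The theorem is not a special case of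
`SeparatedTensorProducts`, which assumes the Tate conjecture for `𝒳` and that the eigenvalues are
separated: both are proved here.

The framework (`TheoryData`, `IsChow`, `IsWeil`) is the one of helper492: the Chow groups `C` with their
pull-backs, push-forwards and products, and a Weil cohomology theory `H` with coefficients in an
algebraically closed field `K`, on a class `𝒱` of smooth proper varieties over `k`.

**Idea of the proof.** Let `α = ∏ y ^ e y` be an eigenvalue on the cohomology of `A`, with `α ρ = Q ^ c`, and
let `τ` be the automorphism for `y₁` and `ρ`. Then `τ α` is `α` up to a root of unity, and this is a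
relation between the eigenvalues of `A`, with the exponents `e (τ⁻¹ z) + e (Q / z)`. As the angle
rank is maximal, the exponents of `y₁` and `ȳ₁` in it are equal, which says that `e y₁ = e ȳ₁`. So
`α` is a power of `Q`, and the products of eigenvectors with this eigenvalue are products of divisor
classes.
-/

set_option autoImplicit false

open CategoryTheory AlgebraicGeometry

namespace Pool.Agent.Results.MP_dd457d_ag.MaximalAngleRank

open Pool.Agent.H914 Pool.Agent.H914.VarClass Pool.Agent.H914.VarClass.Obj Pool.Agent.W492.BB
  Pool.Agent.W484.CK Pool.Agent.T9h37.NK Pool.Agent.T9h37.NM

/-- `π` is the Frobenius endomorphism of the abelian variety `A` over the field with `Q` elements, and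
`𝒳 = (A, e)`. -/
theorem result (k : Type) [Field k] (𝒱 : VarClass k) (C : TheoryData.{0, 0, 0} 𝒱 ℚ) [IsChow C]
    (K : Type) [Field K] [IsAlgClosed K] [CharZero K] (H : WeilTheoryData.{0, 0, 0} C K) [IsWeil H]
    (hS : IsStandard H) (Q : ℕ) (A : 𝒱.Obj) (π : A ⟶ A) (hA : IsAbelianVariety H π Q)
    (hrank : HasMaximalAngleRank H π Q) (hnil : ProductsVanish H A) (e : C.A (A.prod A))
    (he : IsIdempotent C e) : KunnethForIndependent H π Q e :=
  main hS hA hrank hnil e he

end Pool.Agent.Results.MP_dd457d_ag.MaximalAngleRank
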