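import Pool.Agent.T9h37.NK.Main

/-!
# The noncommutative conjecture of Beilinson for tensor products with separated Frobenius eigenvalues

Let `𝒳` and `𝒜` be smooth proper dg categories over the field with `Q` elements whose noncommutative
motives with rational coefficients are direct summands `(X, e)` and `(Z, e')` of the ones of smooth
projective varieties `X` and `Z`, for instance components of semi-orthogonal decompositions. Here `e`
and `e'` are **arbitrary** idempotents in the rings `K_0(X × X)_ℚ` and `K_0(Z × Z)_ℚ`, which are
identified with the Chow groups, all degrees together, by the Chern character multiplied by the square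
root of the Todd class; they are not homogeneous in general. So there are no Frobenius endomorphisms of
`𝒳` and `𝒜`, but an eigenvalue `μ` of Frobenius on the cohomology of `X` *occurs* in `𝒳` (`Occurs`) if
some generalized eigenvector is not killed by `e`; whether `μ` occurs is a property of `𝒳` up to powers
of `Q`.

**Theorem.** Suppose that

* `𝒳` satisfies the Tate conjecture in the strong form (`IsTate`): for a generalized eigenvector `a` of
  Frobenius with eigenvalue a power of `Q` the class `e a` is a linear combination of classes of elements
  of `K_0(𝒳)_ℚ`, and numerically trivial elements of `K_0(𝒳)_ℚ` are homologically trivial;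
* products of sufficiently many homologically trivial endomorphisms of the noncommutative motives of `X`
  and of `X × Z` are zero (`ProductsVanish`), for instance the motive of `X × Z` is finite-dimensional in
  the sense of Kimura and O'Sullivan;
* the eigenvalues of `𝒳` and `𝒜` are separated (`AreSeparated`): if the product of an eigenvalue that
  occurs in `𝒳` and one that occurs in `𝒜` is a power of `Q`, then both are powers of `Q`.

Then `K_0(𝒳)_ℚ` has a finite basis `D j` (which does not depend on `𝒜`), its Euler pairing is
nondegenerate, and `K_0(𝒳 ⊗ 𝒜)_ℚ = ⨁ D j × K_0(𝒜)_ℚ = K_0(𝒳)_ℚ ⊗ K_0(𝒜)_ℚ`, and the same for the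
kernels of the Euler pairings. So, if `K_0(𝒳)_ℚ ≠ 0`: **`Ker (χ_ℚ) = 0` for `𝒳 ⊗ 𝒜` if and only if
`Ker (χ_ℚ) = 0` for `𝒜`.** And if `K_0(𝒳)_ℚ = 0` then `K_0(𝒳 ⊗ 𝒜)_ℚ = 0`.

There is no assumption on the conjectures for `𝒜`. The assumptions on `𝒳` are theorems for instance for
curves, products of elliptic curves, varieties whose motive is a sum of Lefschetz motives and a part of odd
weight (cubic threefolds and other complete intersections of odd dimension), and all components of them. For
instance, let `X` be a curve such that no Frobenius eigenvalue on `H^1(X)` is a power of `Q` times the
inverse of an eigenvalue of `𝒜`. As each eigenvalue of `𝒜` excludes at most one Weil number of weight one,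
for a given `𝒜` (for instance `𝒜 = perf(Z)`) this means that the Jacobian of `X` has no factor in a
finite set of simple abelian varieties, at most `dim H(Z)` up to isogeny, whatever the genus of `X`. Then
the theorem says that `K_0(perf(X) ⊗ 𝒜)_ℚ = K_0(𝒜)_ℚ ⊕ K_0(𝒜)_ℚ`, and that the conjecture for
`perf(X) ⊗ 𝒜` is equivalent to the one for `𝒜`.

**What was known.** For one category, that is for `𝒜 = perf(point)`: the conjecture of Beilinson for
varieties of which Kimura's finiteness and the Tate conjecture are known (Soulé, Geisser, Kahn), and the
translation to noncommutative motives (Tabuada). The starting file `AlmostAllAbelianFactors` proves the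
Kunneth formula when `𝒳 = perf(A)` for almost all abelian varieties `A` (in terms of their
characteristic polynomials), relative to `𝒜`. Here `𝒳` is an arbitrary, also noncommutative, factor with
the Tate conjecture, and the condition relative to `𝒜` is explicit and optimal: if eigenvalues `μ` of `𝒳`
and `ρ` of `𝒜` with `μ ρ = Q ^ c` are not powers of `Q`, the Tate conjecture predicts new classes in
`K_0(𝒳 ⊗ 𝒜)`.

The framework (`TheoryData`, `IsChow`, `IsWeil`) is the one of helper492: the Chow groups `C` with their
pull-backs, push-forwards and products, and a Weil cohomology theory `H` with coefficients in an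
algebraically closed field `K`, on a class `𝒱` of smooth proper varieties over `k`.

**Idea of the proof.** Let `p` be the projector given by the `D j` and dual classes in `CH(X)_ℚ`, let
`q = (1 - p) (e × e')` and let `P i` be a polynomial such that `P i (F)` maps the cohomology of `X × Z` to the
generalized eigenspace for `Q ^ i`. By the assumptions `q P i (F)` acts as zero on the cohomology. It does
not commute with `F` and is not homogeneous, since `e` and `e'` are not, so that the usual argument (`q` is
an idempotent that commutes with `F`) does not work. But let `N n` be the space spanned by the values, on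
the Chow groups of `X × Z`, of products of `n` homogeneous homologically trivial correspondences. It is spanned
by homogeneous classes `z`, for which `P i (F) z` is a nonzero multiple of `z`, `i` the degree of `z`. So `q z`
is a combination of the values at `z` of the homogeneous components of `q P i (F)`, which are homologically
trivial; so `q` maps `N n` to `N (n + 1)`, hence all classes fixed by `q` lie in `N n` for all `n`, and
vanish.
-/

set_option autoImplicit false

open CategoryTheory AlgebraicGeometry

namespace Pool.Agent.Results.MP_dd457d_ag.SeparatedTensorProducts

open Pool.Agent.H914 Pool.Agent.H914.VarClass Pool.Agent.H914.VarClass.Obj Pool.Agent.W492.BB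
  Pool.Agent.W484.CK Pool.Agent.T9h37.NK

/-- `𝒳 = (X, e)`, and `π` is the Frobenius endomorphism of `X`. -/
theorem result (k : Type) [Field k] (𝒱 : VarClass k) (C : TheoryData.{0, 0, 0} 𝒱 ℚ) [IsChow C]
    (K : Type) [Field K] [IsAlgClosed K] [CharZero K] (H : WeilTheoryData.{0, 0, 0} C K) [IsWeil H]
    (hS : IsStandard H) (Q : ℕ) (X : 𝒱.Obj) (π : X ⟶ X) (e : C.A (X.prod X))
    (h : IsTateMotive H π Q e) : SatisfiesKunneth H π Q e :=
  main hS h

end Pool.Agent.Results.MP_dd457d_ag.SeparatedTensorProducts
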